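import Pool.Agent.Helper20.QD.St2

/-!
# Project QD, part B, module RKO: Koebe's step
-/

set_option autoImplicit false

open Filter Topology Matrix Set Metric
open scoped ComplexConjugate ComplexOrder

namespace Pool.Agent.Helper18.QD

open Pool.Agent.Helper35.PM Pool.Agent.Helper20.QD

/-- disc automorphism exchanging `0` and `a` -/
private noncomputable def B (a z : ℂ) : ℂ := (a - z) / (1 - conj a * z)

private theorem B_den {a z : ℂ} (ha : ‖a‖ < 1) (hz : ‖z‖ < 1) : 1 - conj a * z ≠ 0 := by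
  intro h
  have h1 : conj a * z = 1 := (sub_eq_zero.1 h).symm
  have h2 : ‖a‖ * ‖z‖ = 1 := by
    rw [← RCLike.norm_conj a, ← norm_mul, h1, norm_one]
  nlinarith [norm_nonneg a, norm_nonneg z]

private theorem B_maps {a z : ℂ} (ha : ‖a‖ < 1) (hz : ‖z‖ < 1) : ‖B a z‖ < 1 := by
  have hden := B_den ha hz
  rw [B, norm_div, div_lt_one (norm_pos_iff.2 hden)]
  have h1 : ‖1 - conj a * z‖ ^ 2 - ‖a - z‖ ^ 2 = (1 - ‖a‖ ^ 2) * (1 - ‖z‖ ^ 2) := by
    rw [← Complex.normSq_eq_norm_sq, ← Complex.normSq_eq_norm_sq, ← Complex.normSq_eq_norm_sq,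
      ← Complex.normSq_eq_norm_sq]
    simp only [Complex.normSq_apply, Complex.sub_re, Complex.sub_im, Complex.mul_re,
      Complex.mul_im, Complex.conj_re, Complex.conj_im, Complex.one_re, Complex.one_im]
    ring
  have h2 : 0 < (1 - ‖a‖ ^ 2) * (1 - ‖z‖ ^ 2) := by
    apply mul_pos
    · nlinarith [norm_nonneg a]
    · nlinarith [norm_nonneg z]
  apply lt_of_pow_lt_pow_left₀ 2 (norm_nonneg _)
  linarith

private theorem B_invol {a z : ℂ} (ha : ‖a‖ < 1) (hz : ‖z‖ < 1) : B a (B a z) = z := by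
  have hden := B_den ha hz
  have hden2 := B_den ha (B_maps ha hz)
  have hB : B a z * (1 - conj a * z) = a - z := by
    rw [B, div_mul_cancel₀ _ hden]
  have h1 : B a (B a z) = (a - B a z) / (1 - conj a * B a z) := rfl
  rw [h1, div_eq_iff hden2]
  apply mul_right_cancel₀ hden
  linear_combination (-1 + z * conj a) * hB

private theorem B_hasDeriv {a z : ℂ} (ha : ‖a‖ < 1) (hz : ‖z‖ < 1) :
    HasDerivAt (B a) (-(1 - conj a * a) / (1 - conj a * z) ^ 2) z := by
  have hden := B_den ha hz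
  have h1 : HasDerivAt (fun z : ℂ => a - z) (-1) z := by
    simpa using (hasDerivAt_id z).const_sub a
  have h2 : HasDerivAt (fun z : ℂ => 1 - conj a * z) (-(conj a)) z := by
    simpa using ((hasDerivAt_id z).const_mul (conj a)).const_sub 1
  have h3 := h1.div h2 hden
  refine HasDerivAt.congr_deriv h3 ?_
  congr 1
  ring

private theorem B_zero (a : ℂ) : B a 0 = a := by simp [B]

private theorem B_self (a : ℂ) : B a a = 0 := by simp [B]

/-- a continuous square root of a holomorphic zero free function is holomorphic -/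
private theorem sqrt_deriv {U : Set ℂ} (hU : IsOpen U) {u s : ℂ → ℂ} (hs : ContinuousOn s U)
    (hsu : ∀ z ∈ U, s z ^ 2 = u z) (hs0 : ∀ z ∈ U, s z ≠ 0) {z₀ u' : ℂ} (hz : z₀ ∈ U)
    (hu : HasDerivAt u u' z₀) : HasDerivAt s (u' / (s z₀ + s z₀)) z₀ := by
  rw [hasDerivAt_iff_tendsto_slope]
  have h1 : Tendsto (slope u z₀) (𝓝[≠] z₀) (𝓝 u') := hu.tendsto_slope
  have hc : ContinuousAt s z₀ := hs.continuousAt (hU.mem_nhds hz)
  have h2 : Tendsto (fun z => s z + s z₀) (𝓝[≠] z₀) (𝓝 (s z₀ + s z₀)) :=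
    (hc.tendsto.mono_left nhdsWithin_le_nhds).add tendsto_const_nhds
  have hne : s z₀ + s z₀ ≠ 0 := by
    rw [← two_mul]
    exact mul_ne_zero two_ne_zero (hs0 z₀ hz)
  have h3 := h1.div h2 hne
  refine h3.congr' ?_
  filter_upwards [h2.eventually_ne hne, nhdsWithin_le_nhds (hU.mem_nhds hz), self_mem_nhdsWithin]
    with z hz1 hz2 hz3
  have hzz : z - z₀ ≠ 0 := sub_ne_zero.2 hz3
  show slope u z₀ z / (s z + s z₀) = slope s z₀ z
  rw [slope_def_field, slope_def_field, ← hsu z hz2, ← hsu z₀ hz]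
  field_simp
  ring

theorem hRKO (hRIJ : StRIJ) : StRKO := by
  intro U p h hU _ hp hlog hd hi hm h0 hne
  obtain ⟨w₀, hw1, hw2⟩ : ∃ w₀ ∈ D, w₀ ∉ h '' U := by
    by_contra hcon
    push Not at hcon
    exact hne (Subset.antisymm (image_subset_iff.2 hm) hcon)
  have hw : ‖w₀‖ < 1 := by simpa using hw1
  have hmz : ∀ z ∈ U, ‖h z‖ < 1 := fun z hz => by simpa using hm hz
  have hud : ∀ z ∈ U, DifferentiableAt ℂ (fun z => B w₀ (h z)) z := by
    intro z hz
    have h1 := (B_hasDeriv hw (hmz z hz)).differentiableAt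
    exact h1.comp z (hd.differentiableAt (hU.mem_nhds hz))
  have hunz : ∀ z ∈ U, B w₀ (h z) ≠ 0 := by
    intro z hz h1
    have h2 := B_invol hw (hmz z hz)
    rw [h1, B_zero] at h2
    exact hw2 ⟨z, hz, h2.symm⟩
  obtain ⟨g, hgc, hg⟩ := hlog (fun z => B w₀ (h z))
    (fun z hz => (hud z hz).continuousAt.continuousWithinAt) hunz
  set s : ℂ → ℂ := fun z => Complex.exp (g z / 2) with hs
  have hsc : ContinuousOn s U := (hgc.div_const 2).cexp
  have hs2 : ∀ z ∈ U, s z ^ 2 = B w₀ (h z) := by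
    intro z hz
    have h1 : B w₀ (h z) = Complex.exp (g z) := hg z hz
    rw [h1, hs, ← Complex.exp_nat_mul]
    congr 1
    push_cast
    ring
  have hs0 : ∀ z ∈ U, s z ≠ 0 := fun z _ => Complex.exp_ne_zero _
  have hsn : ∀ z ∈ U, ‖s z‖ < 1 := by
    intro z hz
    apply lt_of_pow_lt_pow_left₀ 2 zero_le_one
    rw [← norm_pow, hs2 z hz]
    simpa using B_maps hw (hmz z hz)
  have hsd : ∀ z ∈ U, DifferentiableAt ℂ s z := fun z hz =>
    (sqrt_deriv hU hsc hs2 hs0 hz (hud z hz).hasDerivAt).differentiableAt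
  set b : ℂ := s p with hb
  have hb1 : ‖b‖ < 1 := hsn p hp
  have hb2 : b ^ 2 = w₀ := by rw [hb, hs2 p hp, h0, B_zero]
  have hkd : ∀ z ∈ U, DifferentiableAt ℂ (fun z => B b (s z)) z := by
    intro z hz
    exact (B_hasDeriv hb1 (hsn z hz)).differentiableAt.comp z (hsd z hz)
  refine ⟨fun z => B b (s z), fun z hz => (hkd z hz).differentiableWithinAt, ?_, ?_, ?_, ?_⟩
  · intro z hz w hw' hzw
    have h2 : s z = s w := by
      rw [← B_invol hb1 (hsn z hz)]
      show B b (B b (s z)) = s w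
      rw [show B b (s z) = B b (s w) from hzw, B_invol hb1 (hsn w hw')]
    have h3 : B w₀ (h z) = B w₀ (h w) := by
      rw [← hs2 z hz, h2, hs2 w hw']
    apply hi hz hw'
    rw [← B_invol hw (hmz z hz), h3, B_invol hw (hmz w hw')]
  · intro z hz
    show B b (s z) ∈ D
    rw [mem_ball_zero_iff]
    exact B_maps hb1 (hsn z hz)
  · show B b (s p) = 0
    exact B_self _
  · set k : ℂ → ℂ := fun z => B b (s z) with hk
    have hk0 : k p = 0 := B_self _
    have hkp : HasDerivAt k (deriv k p) p := (hkd p hp).hasDerivAt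
    have hΦ : HasDerivAt (fun ζ => B w₀ (B b ζ ^ 2)) (2 * b / (1 + (‖b‖ : ℂ) ^ 2)) (k p) := by
      rw [hk0]
      have h1 : ‖(0 : ℂ)‖ < 1 := by simp
      have h2 := (B_hasDeriv hb1 h1).pow 2
      have h3 : ‖B b 0 ^ 2‖ < 1 := by rw [B_zero, hb2]; exact hw
      have h4 := (B_hasDeriv hw h3).comp (0 : ℂ) h2
      refine HasDerivAt.congr_deriv h4 ?_
      have e2 : conj b * b = (‖b‖ : ℂ) ^ 2 := by
        rw [mul_comm, Complex.mul_conj, Complex.normSq_eq_norm_sq]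
        push_cast
        ring
      have e1 : conj w₀ * w₀ = (‖b‖ : ℂ) ^ 4 := by
        rw [← hb2, map_pow, ← mul_pow, e2]
        ring
      have e3 : (1 : ℂ) - (‖b‖ : ℂ) ^ 4 ≠ 0 := by
        have : (1 : ℝ) - ‖b‖ ^ 4 ≠ 0 := by
          have := pow_lt_one₀ (norm_nonneg b) hb1 (n := 4) (by norm_num)
          linarith
        exact_mod_cast this
      have e4 : (1 : ℂ) + (‖b‖ : ℂ) ^ 2 ≠ 0 := by
        have : (1 : ℝ) + ‖b‖ ^ 2 ≠ 0 := by positivity
        exact_mod_cast this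
      simp only [B_zero, hb2, e1, mul_zero, sub_zero, e2]
      push_cast
      rw [show (1 : ℂ) - (‖b‖ : ℂ) ^ 4 = (1 - (‖b‖ : ℂ) ^ 2) * (1 + (‖b‖ : ℂ) ^ 2) by ring] at e3 ⊢
      have e5 : (1 : ℂ) - (‖b‖ : ℂ) ^ 2 ≠ 0 := left_ne_zero_of_mul e3
      field_simp
      try ring
    have hcomp := hΦ.comp p hkp
    have heq : h =ᶠ[𝓝 p] (fun ζ => B w₀ (B b ζ ^ 2)) ∘ k := by
      filter_upwards [hU.mem_nhds hp] with z hz
      show h z = B w₀ (B b (B b (s z)) ^ 2)
      rw [B_invol hb1 (hsn z hz), hs2 z hz, B_invol hw (hmz z hz)]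
    have hh := (hcomp.congr_of_eventuallyEq heq).deriv
    have hdne : deriv h p ≠ 0 := (hRIJ U h hU hd hi).1 p hp
    have hknz : deriv k p ≠ 0 := by
      intro h1
      rw [h1, mul_zero] at hh
      exact hdne hh
    rw [hh, norm_mul]
    have hlt : ‖2 * b / (1 + (‖b‖ : ℂ) ^ 2)‖ < 1 := by
      have e4 : ‖(1 : ℂ) + (‖b‖ : ℂ) ^ 2‖ = 1 + ‖b‖ ^ 2 := by
        have : (1 : ℂ) + (‖b‖ : ℂ) ^ 2 = ((1 + ‖b‖ ^ 2 : ℝ) : ℂ) := by push_cast; ring
        rw [this, Complex.norm_real, Real.norm_eq_abs, abs_of_pos (by positivity)]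
      rw [norm_div, norm_mul, e4, div_lt_one (by positivity)]
      simp only [Complex.norm_ofNat]
      nlinarith [sq_nonneg (1 - ‖b‖), mul_self_pos.2 (sub_ne_zero.2 hb1.ne)]
    have hpos : 0 < ‖deriv k p‖ := norm_pos_iff.2 hknz
    calc ‖2 * b / (1 + (‖b‖ : ℂ) ^ 2)‖ * ‖deriv k p‖ < 1 * ‖deriv k p‖ :=
          mul_lt_mul_of_pos_right hlt hpos
      _ = ‖deriv k p‖ := one_mul _

end Pool.Agent.Helper18.QD
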