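import Pool.Agent.Helper20.QD.St1

/-!
# Project QD, part B, module TIN: the inside of a Jordan curve
-/

set_option autoImplicit false

open Filter Topology Matrix Set Metric
open scoped ComplexConjugate ComplexOrder

namespace Pool.Agent.Helper18.QD

open Pool.Agent.Helper35.PM Pool.Agent.Helper20.QD

private theorem compl_inn_TIN (J : Set ℂ) : (inn J)ᶜ = J ∪ out J := by
  ext p
  simp only [inn, out, mem_compl_iff, mem_union, Set.mem_ofPred_eq]
  tauto

theorem hTIN (hTJ2 : StTJ2) (hTLG : StTLG) : StTIN := by
  intro β J hJ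
  obtain ⟨hio, hib, hip, hoo, hop, -, hof, R, -, hR⟩ := hTJ2 β J hJ
  have hrank : 1 < Module.rank ℝ ℂ := by
    rw [Complex.rank_real_complex]
    norm_num
  have hSS : IsPreconnected (SS : Set ℂ) := isPreconnected_sphere hrank 0 1
  have hJp : IsPreconnected J := by
    rw [← hJ.2.2]
    exact hSS.image β hJ.1
  have hJne : J.Nonempty := by
    rw [← hJ.2.2]
    exact ⟨β 1, 1, by simp, rfl⟩
  have hone : (out J).Nonempty := ⟨((|R| : ℝ) : ℂ), hR _ (by
    rw [Complex.norm_real, Real.norm_eq_abs, abs_abs]
    exact le_abs_self R)⟩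
  have hdisj : ∀ x ∈ J, x ∉ out J := fun x hx h => h.1 hx
  obtain ⟨x, hxJ, hxc⟩ : ∃ x ∈ J, x ∈ closure (out J) := by
    by_contra hcon
    push Not at hcon
    have h1 : frontier (out J) = ∅ := by
      rw [eq_empty_iff_forall_notMem]
      intro y hy
      exact hcon y (hof hy) (frontier_subset_closure hy)
    have h2 : IsClopen (out J) := isClopen_iff_frontier_eq_empty.2 h1
    rcases isClopen_iff.1 h2 with h3 | h3
    · exact hone.ne_empty h3
    · obtain ⟨y, hy⟩ := hJne
      exact hdisj y hy (h3 ▸ mem_univ y)
  have hcompl : IsPreconnected (inn J)ᶜ := by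
    rw [compl_inn_TIN]
    have h1 : IsPreconnected (insert x (out J)) :=
      hop.subset_closure (subset_insert x (out J)) (insert_subset hxc subset_closure)
    have h2 := IsPreconnected.union x hxJ (mem_insert x (out J)) hJp h1
    have h3 : J ∪ insert x (out J) = J ∪ out J := by
      ext y
      simp only [mem_union, mem_insert_iff]
      constructor
      · rintro (h | h | h)
        · exact Or.inl h
        · exact Or.inl (h ▸ hxJ)
        · exact Or.inr h
      · rintro (h | h)
        · exact Or.inl h
        · exact Or.inr (Or.inr h)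
    rwa [h3] at h2
  exact ⟨hcompl, fun u hu h0 => hTLG (inn J) u hio hib hip hcompl hu h0⟩

end Pool.Agent.Helper18.QD
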